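import Mathlib

set_option autoImplicit false

namespace Pool.Agent.H66R2.Saxl

open scoped Pointwise

section gen

variable {W : Type} [AddCommGroup W] (K : Subgroup (Equiv.Perm W))
variable (hadd : ∀ k ∈ K, ∀ x y : W, k (x + y) = k x + k y) (n : ℕ)

/-- The affine group `W ^ n : (K wr S_n)`. -/
def GG : Subgroup (Equiv.Perm (Fin n → W)) where
  carrier := {g | ∃ (σ : Equiv.Perm (Fin n)) (k : Fin n → Equiv.Perm W) (c : Fin n → W),
    (∀ i, k i ∈ K) ∧ ∀ x i, g x i = k i (x (σ i)) + c i}
  one_mem' := ⟨1, fun _ => 1, 0, fun _ => K.one_mem, fun x i => by simp⟩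
  mul_mem' := by
    rintro g g' ⟨σ, k, c, hk, h⟩ ⟨σ', k', c', hk', h'⟩
    refine ⟨σ' * σ, fun i => k i * k' (σ i), fun i => k i (c' (σ i)) + c i,
      fun i => K.mul_mem (hk i) (hk' _), fun x i => ?_⟩
    rw [Equiv.Perm.mul_apply, h, h', hadd _ (hk i)]
    simp only [Equiv.Perm.mul_apply]
    abel
  inv_mem' := by
    rintro g ⟨σ, k, c, hk, h⟩
    refine ⟨σ⁻¹, fun i => (k (σ⁻¹ i))⁻¹, fun i => (k (σ⁻¹ i))⁻¹ (- c (σ⁻¹ i)),
      fun i => K.inv_mem (hk _), fun x i => ?_⟩
    have h1 := h (g⁻¹ x) (σ⁻¹ i)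
    have e1 : g (g⁻¹ x) = x := g.apply_symm_apply x
    have e2 : σ (σ⁻¹ i) = i := σ.apply_symm_apply i
    rw [e1, e2] at h1
    show g⁻¹ x i = (k (σ⁻¹ i))⁻¹ (x (σ⁻¹ i)) + (k (σ⁻¹ i))⁻¹ (-c (σ⁻¹ i))
    rw [← hadd _ (K.inv_mem (hk _)), Equiv.Perm.eq_inv_iff_eq, h1]
    abel

variable {K} {n}

theorem mem_GG {g : Equiv.Perm (Fin n → W)} : g ∈ GG K hadd n ↔
    ∃ (σ : Equiv.Perm (Fin n)) (k : Fin n → Equiv.Perm W) (c : Fin n → W),
    (∀ i, k i ∈ K) ∧ ∀ x i, g x i = k i (x (σ i)) + c i := Iff.rfl

/-- the permutation with data `σ, k, c` -/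
def mkg (σ : Equiv.Perm (Fin n)) (k : Fin n → Equiv.Perm W) (c : Fin n → W) :
    Equiv.Perm (Fin n → W) where
  toFun x i := k i (x (σ i)) + c i
  invFun y j := (k (σ⁻¹ j))⁻¹ (y (σ⁻¹ j) - c (σ⁻¹ j))
  left_inv x := by
    funext j
    simp
  right_inv y := by
    funext j
    simp

theorem mkg_mem (σ : Equiv.Perm (Fin n)) (k : Fin n → Equiv.Perm W) (c : Fin n → W)
    (hk : ∀ i, k i ∈ K) : mkg σ k c ∈ GG K hadd n :=
  ⟨σ, k, c, hk, fun _ _ => rfl⟩

theorem mkg_apply (σ : Equiv.Perm (Fin n)) (k : Fin n → Equiv.Perm W) (c : Fin n → W)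
    (x : Fin n → W) (i : Fin n) : mkg σ k c x i = k i (x (σ i)) + c i := rfl

include hadd in
theorem map_zero_of_mem {k : Equiv.Perm W} (hk : k ∈ K) : k 0 = 0 := by
  have h := hadd k hk 0 0
  rw [add_zero] at h
  exact left_eq_add.1 h

/-- primitivity of the affine group -/
theorem prim (hirr : ∀ B : Set W, (∀ x ∈ B, ∀ y ∈ B, x + y ∈ B) → (∀ x ∈ B, -x ∈ B) →
      (∀ k ∈ K, ∀ x ∈ B, k x ∈ B) → (∃ x ∈ B, x ≠ 0) → ∀ x, x ∈ B)
    (hfix : ∀ x : W, x ≠ 0 → ∃ k ∈ K, k x ≠ x) :
    MulAction.IsPreprimitive (GG K hadd n) (Fin n → W) := by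
  classical
  have htr : MulAction.IsPretransitive (GG K hadd n) (Fin n → W) := by
    constructor
    intro x y
    refine ⟨⟨mkg 1 (fun _ => 1) (y - x), mkg_mem hadd _ _ _ fun _ => K.one_mem⟩, ?_⟩
    show mkg 1 (fun _ => 1) (y - x) x = y
    funext i
    simp [mkg_apply]
  apply MulAction.IsPreprimitive.of_isTrivialBlock_base (0 : Fin n → W)
  intro B h0 hB
  rw [MulAction.isBlock_iff_smul_eq_of_mem] at hB
  have key : ∀ g ∈ GG K hadd n, ∀ b ∈ B, g b ∈ B → ∀ x ∈ B, g x ∈ B := by
    intro g hg b hb hgb x hx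
    have h1 := hB (g := ⟨g, hg⟩) (a := b) hb hgb
    have h2 : (⟨g, hg⟩ : GG K hadd n) • x ∈ (⟨g, hg⟩ : GG K hadd n) • B :=
      Set.smul_mem_smul_set hx
    rw [h1] at h2
    exact h2
  have hlin : ∀ (σ : Equiv.Perm (Fin n)) (k : Fin n → Equiv.Perm W), (∀ i, k i ∈ K) →
      ∀ x ∈ B, mkg σ k 0 x ∈ B := by
    intro σ k hk x hx
    refine key _ (mkg_mem hadd _ _ _ hk) 0 h0 ?_ x hx
    have : mkg σ k 0 (0 : Fin n → W) = 0 := by
      funext i
      rw [mkg_apply]
      simp only [Pi.zero_apply, add_zero]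
      exact map_zero_of_mem hadd (hk i)
    rw [this]
    exact h0
  have hB_add : ∀ x ∈ B, ∀ y ∈ B, x + y ∈ B := by
    intro x hx y hy
    have h1 : mkg 1 (fun _ => (1 : Equiv.Perm W)) y 0 ∈ B := by
      have : mkg 1 (fun _ => (1 : Equiv.Perm W)) y 0 = y := by
        funext i
        simp [mkg_apply]
      rw [this]
      exact hy
    have h2 := key _ (mkg_mem hadd 1 (fun _ => 1) y fun _ => K.one_mem) 0 h0 h1 x hx
    have h3 : mkg 1 (fun _ => (1 : Equiv.Perm W)) y x = x + y := by
      funext i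
      simp [mkg_apply]
    rwa [h3] at h2
  have hB_neg : ∀ x ∈ B, -x ∈ B := by
    intro x hx
    have h1 : mkg 1 (fun _ => (1 : Equiv.Perm W)) (-x) x ∈ B := by
      have : mkg 1 (fun _ => (1 : Equiv.Perm W)) (-x) x = 0 := by
        funext i
        simp [mkg_apply]
      rw [this]
      exact h0
    have h2 := key _ (mkg_mem hadd 1 (fun _ => 1) (-x) fun _ => K.one_mem) x hx h1 0 h0
    have h3 : mkg 1 (fun _ => (1 : Equiv.Perm W)) (-x) 0 = -x := by
      funext i
      simp [mkg_apply]
    rwa [h3] at h2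
  by_cases hne : ∃ b ∈ B, b ≠ 0
  · right
    obtain ⟨b, hb, hb0⟩ := hne
    obtain ⟨i, hi⟩ : ∃ i, b i ≠ 0 := Function.ne_iff.1 hb0
    obtain ⟨k, hk, hki⟩ := hfix (b i) hi
    -- a vector supported on the coordinate `i`
    have hs : Pi.single i (k (b i) - b i) ∈ B := by
      have h1 := hlin 1 (fun j => if j = i then k else 1) (by
        intro j
        split_ifs
        · exact hk
        · exact K.one_mem) b hb
      have h2 := hB_add _ h1 _ (hB_neg _ hb)
      have h3 : mkg 1 (fun j => if j = i then k else 1) 0 b + -b =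
          Pi.single i (k (b i) - b i) := by
        funext j
        rw [Pi.add_apply, mkg_apply]
        by_cases hj : j = i
        · subst hj
          simp [sub_eq_add_neg]
        · simp [hj]
      rwa [h3] at h2
    have hall : ∀ x : W, Pi.single i x ∈ B := by
      apply hirr {x | Pi.single i x ∈ B}
      · intro x hx y hy
        show Pi.single i (x + y) ∈ B
        rw [Pi.single_add]
        exact hB_add _ hx _ hy
      · intro x hx
        show Pi.single i (-x) ∈ B
        rw [Pi.single_neg]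
        exact hB_neg _ hx
      · intro k' hk' x hx
        show Pi.single i (k' x) ∈ B
        have h1 := hlin 1 (fun _ => k') (fun _ => hk') _ hx
        have h3 : mkg 1 (fun _ => k') 0 (Pi.single i x) = Pi.single i (k' x) := by
          funext j
          rw [mkg_apply]
          by_cases hj : j = i
          · subst hj
            simp
          · simp [hj, map_zero_of_mem hadd hk']
        rwa [h3] at h1
      · exact ⟨_, hs, sub_ne_zero.2 hki⟩
    have hall2 : ∀ (j : Fin n) (x : W), Pi.single j x ∈ B := by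
      intro j x
      have h1 := hlin (Equiv.swap i j) (fun _ => 1) (fun _ => K.one_mem) _ (hall x)
      have h3 : mkg (Equiv.swap i j) (fun _ => (1 : Equiv.Perm W)) 0 (Pi.single i x) =
          Pi.single j x := by
        funext l
        rw [mkg_apply]
        by_cases hl : l = j
        · subst hl
          simp
        · have h4 : Equiv.swap i j l ≠ i := by
            intro e
            apply hl
            rw [Equiv.swap_apply_eq_iff, Equiv.swap_apply_left] at e
            exact e
          simp [hl, h4]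
      rwa [h3] at h1
    rw [Set.eq_univ_iff_forall]
    intro x
    rw [← Finset.univ_sum_single x]
    apply Finset.sum_induction _ (fun y => y ∈ B)
    · intro a b' ha hb'
      exact hB_add _ ha _ hb'
    · exact h0
    · intro j _
      exact hall2 j (x j)
  · left
    push Not at hne
    intro x hx y hy
    rw [hne x hx, hne y hy]

/-- if a point together with `0` is a base then its coordinates are regular for `K` -/
theorem reg_of_base {γ : Fin n → W} (hγ : ∀ g ∈ GG K hadd n, g 0 = 0 → g γ = γ → g = 1) :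
    ∀ i, ∀ k ∈ K, k (γ i) = γ i → k = 1 := by
  classical
  intro i k hk hki
  have h1 := hγ (mkg 1 (fun j => if j = i then k else 1) 0) (mkg_mem hadd _ _ _ (by
      intro j
      split_ifs
      · exact hk
      · exact K.one_mem)) (by
      funext j
      rw [mkg_apply]
      by_cases hj : j = i
      · simp [hj, map_zero_of_mem hadd hk]
      · simp [hj]) (by
      funext j
      rw [mkg_apply]
      by_cases hj : j = i
      · subst hj
        simp [hki]
      · simp [hj])
  ext x
  have h2 := congrFun (congrArg (fun g : Equiv.Perm (Fin n → W) => g (fun _ => x)) h1) i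
  simpa [mkg_apply] using h2

/-- if a point together with `0` is a base then its coordinates lie in different orbits -/
theorem orb_of_base {γ : Fin n → W} (hγ : ∀ g ∈ GG K hadd n, g 0 = 0 → g γ = γ → g = 1)
    (hW : ∃ x : W, x ≠ 0) :
    ∀ i j, i ≠ j → ∀ k ∈ K, k (γ i) ≠ γ j := by
  classical
  intro i j hij k hk hkij
  have h1 := hγ (mkg (Equiv.swap i j)
      (fun l => if l = j then k else if l = i then k⁻¹ else 1) 0) (mkg_mem hadd _ _ _ (by
      intro l
      split_ifs
      · exact hk
      · exact K.inv_mem hk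
      · exact K.one_mem)) (by
      funext l
      rw [mkg_apply]
      by_cases hl : l = j
      · simp [hl, map_zero_of_mem hadd hk]
      · by_cases hl' : l = i
        · have := map_zero_of_mem hadd (K.inv_mem hk)
          simp [hl', hij, this]
        · simp [hl, hl']) (by
      funext l
      rw [mkg_apply]
      by_cases hl : l = j
      · subst hl
        simp [hkij]
      · by_cases hl' : l = i
        · subst hl'
          simp [hij, ← hkij]
        · rw [Equiv.swap_apply_of_ne_of_ne hl' hl]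
          simp [hl, hl'])
  obtain ⟨x, hx⟩ := hW
  have h2 := congrFun (congrArg (fun g : Equiv.Perm (Fin n → W) => g (Pi.single i x)) h1) i
  simp only [mkg_apply, Equiv.swap_apply_left, Equiv.Perm.one_apply, Pi.single_eq_same,
    Pi.single_eq_of_ne (Ne.symm hij)] at h2
  rw [if_neg hij] at h2
  simp only [if_true, map_zero_of_mem hadd (K.inv_mem hk)] at h2
  simp at h2
  exact hx h2.symm

end gen

end Pool.Agent.H66R2.Saxl
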